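import Pool.Agent.W2helper59.CW.Stm

/-!
# Project CW (helper59), piece KER: the kernel inequality
-/

set_option autoImplicit false

namespace Pool.Agent.W2helper2.CW

open Pool.Agent.W2helper59.CW MeasureTheory

lemma fd_continuous (al de ga : ℕ) : Continuous (fd al de ga) := by
  have hA : (0 : ℝ) ≤ (al : ℝ) / (de + 1) := by positivity
  have hC : (0 : ℝ) ≤ (ga : ℝ) / (de + 1) := by positivity
  exact (Real.continuous_rpow_const hA).mul
    ((Real.continuous_rpow_const hC).comp (continuous_const.sub continuous_id))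

lemma root_pow {a : ℝ} (ha : 0 ≤ a) (n de : ℕ) : (a ^ ((n : ℝ) / (de + 1))) ^ (de + 1) = a ^ n := by
  rw [← Real.rpow_natCast, ← Real.rpow_mul ha]
  have h : (n : ℝ) / (de + 1) * ((de + 1 : ℕ) : ℝ) = n := by
    push_cast
    field_simp
  rw [h, Real.rpow_natCast]

lemma int_le {f : ℝ → ℝ} (hf : Continuous f) {x y M : ℝ} (hxy : x ≤ y)
    (h : ∀ t, x ≤ t → t ≤ y → f t ≤ M) : (∫ t in x..y, f t) ≤ (y - x) * M := by
  have h1 := intervalIntegral.integral_mono_on (μ := volume) (f := f) (g := fun _ => M) hxy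
    (hf.intervalIntegrable _ _) (continuous_const.intervalIntegrable _ _)
    (fun t ht => h t ht.1 ht.2)
  rwa [intervalIntegral.integral_const, smul_eq_mul] at h1

lemma le_int {f : ℝ → ℝ} (hf : Continuous f) {x y m : ℝ} (hxy : x ≤ y)
    (h : ∀ t, x ≤ t → t ≤ y → m ≤ f t) : (y - x) * m ≤ (∫ t in x..y, f t) := by
  have h1 := intervalIntegral.integral_mono_on (μ := volume) (f := fun _ => m) (g := f) hxy
    (continuous_const.intervalIntegrable _ _) (hf.intervalIntegrable _ _)
    (fun t ht => h t ht.1 ht.2)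
  rwa [intervalIntegral.integral_const, smul_eq_mul] at h1

/-- **KER** -/
theorem p_ker : P_KER := by
  intro al de ga eta rho he he2 hr hr1
  have hA : (0 : ℝ) ≤ (al : ℝ) / (de + 1) := by positivity
  have hC : (0 : ℝ) ≤ (ga : ℝ) / (de + 1) := by positivity
  set A : ℝ := (al : ℝ) / (de + 1) with hAdef
  set C : ℝ := (ga : ℝ) / (de + 1) with hCdef
  have hm : 0 < eta ^ A * eta ^ C := mul_pos (Real.rpow_pos_of_pos he _) (Real.rpow_pos_of_pos he _)
  have hN : (0 : ℝ) < (al : ℝ) + ga + 1 := by positivity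
  refine ⟨eta ^ A * eta ^ C * (eta * (1 - rho) / ((al : ℝ) + ga + 1)), ?_, ?_⟩
  · have : 0 < 1 - rho := by linarith
    positivity
  intro x y hx hxy hy hI
  have hx0 : 0 < x := by linarith
  have hy0 : 0 < y := by linarith
  have h1y : 0 < 1 - y := by linarith
  have h1x : 0 < 1 - x := by linarith
  have hfc := fd_continuous al de ga
  have hup : (∫ t in x..y, fd al de ga t) ≤ (y - x) * (y ^ A * (1 - x) ^ C) := by
    refine int_le hfc hxy fun t h1 h2 => ?_
    refine mul_le_mul (Real.rpow_le_rpow (by linarith) h2 hA)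
      (Real.rpow_le_rpow (by linarith) (by linarith) hC) ?_ ?_
    · exact Real.rpow_nonneg (by linarith) _
    · exact Real.rpow_nonneg (by linarith) _
  have hlo : (y - x) * (eta ^ A * eta ^ C) ≤ (∫ t in x..y, fd al de ga t) := by
    refine le_int hfc hxy fun t h1 h2 => ?_
    refine mul_le_mul (Real.rpow_le_rpow he.le (by linarith) hA)
      (Real.rpow_le_rpow he.le (by linarith) hC) ?_ ?_
    · exact Real.rpow_nonneg he.le _
    · exact Real.rpow_nonneg (by linarith) _
  have hI0 : 0 ≤ (∫ t in x..y, fd al de ga t) :=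
    le_trans (mul_nonneg (by linarith) hm.le) hlo
  have hyx : y - x ≤ eta * (1 - rho) / ((al : ℝ) + ga + 1) := by
    have h := hlo.trans hI
    rw [mul_comm (y - x)] at h
    exact le_of_mul_le_mul_left h hm
  set I : ℝ := ∫ t in x..y, fd al de ga t with hIdef
  set u : ℝ := (y - x) / eta with hu
  have hu0 : 0 ≤ u := div_nonneg (by linarith) he.le
  have hu1 : u * ((al : ℝ) + ga + 1) ≤ 1 - rho := by
    rw [hu, div_mul_eq_mul_div, div_le_iff₀ he]
    rw [le_div_iff₀ hN] at hyx
    linarith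
  have hu2 : u ≤ 1 := by
    have : u * 1 ≤ u * ((al : ℝ) + ga + 1) := by
      refine mul_le_mul_of_nonneg_left ?_ hu0
      have h1 : (0 : ℝ) ≤ al := by positivity
      have h2 : (0 : ℝ) ≤ ga := by positivity
      linarith
    linarith
  have hyxu : y - x = u * eta := by rw [hu, div_mul_cancel₀ _ he.ne']
  have hb1 : (1 - u) * y ≤ x := by
    have : u * eta ≤ u * y := mul_le_mul_of_nonneg_left (by linarith) hu0
    nlinarith
  have hb2 : (1 - u) * (1 - x) ≤ 1 - y := by
    have : u * eta ≤ u * (1 - x) := mul_le_mul_of_nonneg_left (by linarith) hu0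
    nlinarith
  have hbern : rho ≤ (1 - u) ^ (al + ga) := by
    have h := one_add_mul_le_pow (a := -u) (by linarith) (al + ga)
    push_cast at h
    have h2 : (1 + -u) = 1 - u := by ring
    rw [h2] at h
    nlinarith
  set Y : ℝ := y ^ A with hY
  set Q : ℝ := (1 - y) ^ C with hQ
  set R : ℝ := (1 - x) ^ C with hR
  have hY0 : 0 < Y := Real.rpow_pos_of_pos hy0 _
  have hQ0 : 0 < Q := Real.rpow_pos_of_pos h1y _
  have hR0 : 0 < R := Real.rpow_pos_of_pos h1x _
  have hYp : Y ^ (de + 1) = y ^ al := root_pow hy0.le al de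
  have hQp : Q ^ (de + 1) = (1 - y) ^ ga := root_pow h1y.le ga de
  have hRp : R ^ (de + 1) = (1 - x) ^ ga := root_pow h1x.le ga de
  have hQR : Q ≤ R := Real.rpow_le_rpow h1y.le (by linarith) hC
  have h1u : 0 ≤ 1 - u := by linarith
  -- comparison of the powers
  have hQd : (1 - u) ^ ga * R ^ de ≤ Q ^ de := by
    have h1 : (1 - u) ^ ga * R ^ (de + 1) ≤ Q ^ (de + 1) := by
      rw [hQp, hRp, ← mul_pow]
      exact pow_le_pow_left₀ (mul_nonneg h1u h1x.le) hb2 ga
    have h2 : Q ^ (de + 1) ≤ Q ^ de * R := by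
      rw [pow_succ]
      exact mul_le_mul_of_nonneg_left hQR (pow_nonneg hQ0.le _)
    have h3 : ((1 - u) ^ ga * R ^ de) * R ≤ Q ^ de * R := by
      calc ((1 - u) ^ ga * R ^ de) * R = (1 - u) ^ ga * R ^ (de + 1) := by ring
        _ ≤ _ := h1.trans h2
    exact le_of_mul_le_mul_right h3 hR0
  have hxal : (1 - u) ^ al * y ^ al ≤ x ^ al := by
    rw [← mul_pow]
    exact pow_le_pow_left₀ (mul_nonneg h1u hy0.le) hb1 al
  have hkey : rho * (y ^ al * R ^ de) ≤ x ^ al * Q ^ de := by
    calc rho * (y ^ al * R ^ de) ≤ (1 - u) ^ (al + ga) * (y ^ al * R ^ de) :=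
          mul_le_mul_of_nonneg_right hbern (mul_nonneg (pow_nonneg hy0.le _) (pow_nonneg hR0.le _))
      _ = ((1 - u) ^ al * y ^ al) * ((1 - u) ^ ga * R ^ de) := by rw [pow_add]; ring
      _ ≤ x ^ al * Q ^ de := mul_le_mul hxal hQd
          (mul_nonneg (pow_nonneg h1u _) (pow_nonneg hR0.le _)) (pow_nonneg hx0.le _)
  have hId : I ^ de ≤ (y - x) ^ de * (Y ^ de * R ^ de) := by
    rw [← mul_pow, ← mul_pow]
    exact pow_le_pow_left₀ hI0 hup de
  have hfy : fd al de ga y = Y * Q := rfl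
  have hyx0 : 0 ≤ (y - x) ^ de := pow_nonneg (by linarith) _
  rw [hfy]
  calc rho * I ^ de * (Y * Q) ≤ rho * ((y - x) ^ de * (Y ^ de * R ^ de)) * (Y * Q) := by
        refine mul_le_mul_of_nonneg_right (mul_le_mul_of_nonneg_left hId hr.le) (by positivity)
    _ = (y - x) ^ de * Q * (rho * (Y ^ (de + 1) * R ^ de)) := by ring
    _ = (y - x) ^ de * Q * (rho * (y ^ al * R ^ de)) := by rw [hYp]
    _ ≤ (y - x) ^ de * Q * (x ^ al * Q ^ de) :=
        mul_le_mul_of_nonneg_left hkey (mul_nonneg hyx0 hQ0.le)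
    _ = x ^ al * (y - x) ^ de * Q ^ (de + 1) := by ring
    _ = x ^ al * (y - x) ^ de * (1 - y) ^ ga := by rw [hQp]

end Pool.Agent.W2helper2.CW
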